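import Pool.Agent.Work.MP_3cad78_co.Three

/-! Forcing the roots of an unrooted model, and rigidity of large blow-ups. -/

namespace Pool.Agent.Work.MP_3cad78_co.Wk

variable {V W J : Type}

theorem weak_of_kempe [Finite V] {H : SimpleGraph W} (hH : WeaklyContractible H)
    {G : SimpleGraph V} {ι : W → V} {c : V → W} (hK : Kempe H G ι c) :
    ∃ C : W → Set V, (∀ w, ∀ x ∈ C w, ∀ y ∈ C w, Conn G (C w) x y) ∧
      (∀ u v, u ≠ v → Disjoint (C u) (C v)) ∧
      ∀ u v, H.Adj u v → ∃ x ∈ C u, ∃ y ∈ C v, G.Adj x y := by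
  have inj : Function.Injective ι := fun u v e => by rw [← hK.1 u, e, hK.1]
  have hex : ∀ e : H.edgeSet, ∃ S : Set V, ∀ u v (h : H.Adj u v), e = ⟨s(u, v), h⟩ →
      (∀ x ∈ S, c x = u ∨ c x = v) ∧
      ∃ p : G.Walk (ι u) (ι v), p.IsPath ∧ ∀ x, x ∈ S ↔ x ∈ p.support := by
    rintro ⟨e, he⟩
    induction e using Sym2.ind with
    | _ u0 v0 =>
    obtain ⟨p, hp, hs⟩ := walk_of_conn (hK.2 u0 v0 he) (Or.inl (hK.1 u0))
    refine ⟨{x | x ∈ p.support}, fun u v h e => ?_⟩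
    rcases Sym2.eq_iff.1 (Subtype.ext_iff.1 e) with ⟨rfl, rfl⟩ | ⟨rfl, rfl⟩
    · exact ⟨hs, p, hp, fun x => Iff.rfl⟩
    · exact ⟨fun x hx => Or.symm (hs x hx), p.reverse, hp.reverse, fun x => by simp⟩
  choose S hS using hex
  obtain ⟨C, h1, h2, h3⟩ := hH V G ⟨ι, inj⟩ S ⟨fun u v h => by
      obtain ⟨k1, p, k2, k3⟩ := hS _ u v h rfl
      refine ⟨p, k2, k3, fun w hw => ?_⟩
      have := k1 _ ((k3 _).2 hw)
      rwa [show c ((⟨ι, inj⟩ : W ↪ V) w) = w from hK.1 w] at this,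
    fun F _ ⟨x, hx⟩ => ⟨c x, fun e he => by
      obtain ⟨e, he'⟩ := e
      induction e using Sym2.ind with
      | _ u v => exact Sym2.mem_iff.2 ((hS _ u v he' rfl).1 x (hx _ he))⟩⟩
  refine ⟨fun w => (C w).verts, fun w x hx y hy => ?_, h2, h3⟩
  obtain ⟨q⟩ := (h1 w).preconnected ⟨_, hx⟩ ⟨y, hy⟩
  have key : ∀ (a b : (C w).verts) (_ : (C w).coe.Walk a b), Conn G (C w).verts a.1 b.1 := by
    intro a b q
    induction q with
    | nil => exact Conn.refl _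
    | @cons a b _ h _ ih => exact (Conn.step a.2 b.2 ((C w).adj_sub h)).trans ih
  exact key _ _ q

theorem not_weak [Finite W] [Finite V] {K : SimpleGraph J} {H : SimpleGraph W} {κ : J → W}
    (hi : Function.Injective κ) (hκ : ∀ j j', K.Adj j j' → H.Adj (κ j) (κ j'))
    {G0 : SimpleGraph V} {ι0 : J → V} {c0 : V → J} (hK : Kempe K G0 ι0 c0)
    (hR : ¬ Rooted K G0 ι0) (deg : ∀ w, Nat.card V < (H.neighborSet w).ncard)
    (rigid : ∀ τ : W ≃ W, (∀ u v, u ∉ Set.range κ → H.Adj (τ u) (τ v) → H.Adj u v) →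
      ∀ u ∈ Set.range κ, ∀ v ∈ Set.range κ, H.Adj u v → H.Adj (τ u) (τ v)) :
    ¬ WeaklyContractible H := by
  classical
  intro hH
  obtain ⟨ι, i1, i2⟩ : ∃ ι : W → W ⊕ V, (∀ j, ι (κ j) = .inr (ι0 j)) ∧
      ∀ u, u ∉ Set.range κ → ι u = .inl u := by
    refine ⟨fun w => if h : ∃ j, κ j = w then .inr (ι0 h.choose) else .inl w, fun j => ?_,
      fun u hu => dif_neg hu⟩
    have h : ∃ j', κ j' = κ j := ⟨j, rfl⟩
    simp only [dif_pos h, hi h.choose_spec]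
  have hc : ∀ w, Sum.elim id (fun a => κ (c0 a)) (ι w) = w := fun w => by
    by_cases h : w ∈ Set.range κ
    · obtain ⟨j, rfl⟩ := h
      rw [i1, Sum.elim_inr, hK.1]
    · rw [i2 w h]; rfl
  have inj : Function.Injective ι := fun u v e => by rw [← hc u, e, hc]
  obtain ⟨G, hG⟩ : ∃ G : SimpleGraph (W ⊕ V), ∀ x y, G.Adj x y ↔
      (∃ u v, H.Adj u v ∧ (¬ ∃ j j', K.Adj j j' ∧ κ j = u ∧ κ j' = v) ∧ ι u = x ∧ ι v = y) ∨
        ∃ a b, G0.Adj a b ∧ .inr a = x ∧ .inr b = y := by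
    refine ⟨⟨fun x y => (∃ u v, H.Adj u v ∧ (¬ ∃ j j', K.Adj j j' ∧ κ j = u ∧ κ j' = v) ∧
      ι u = x ∧ ι v = y) ∨ ∃ a b, G0.Adj a b ∧ .inr a = x ∧ .inr b = y, ⟨?_⟩, ⟨?_⟩⟩,
      fun _ _ => Iff.rfl⟩
    · rintro x y (⟨u, v, h1, h2, h3, h4⟩ | ⟨a, b, h1, h2, h3⟩)
      · exact Or.inl ⟨v, u, h1.symm, fun ⟨j, j', a, b, c⟩ => h2 ⟨j', j, a.symm, c, b⟩, h4, h3⟩
      · exact Or.inr ⟨b, a, h1.symm, h3, h2⟩
    · rintro x (⟨u, v, h1, -, h3, h4⟩ | ⟨a, b, h1, h2, h3⟩)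
      · exact h1.ne (inj (h3.trans h4.symm))
      · exact h1.ne (Sum.inr_injective (h2.trans h3.symm))
  have hKe : Kempe H G ι (Sum.elim id fun a => κ (c0 a)) := by
    refine ⟨hc, fun u v huv => ?_⟩
    by_cases h : ¬ ∃ j j', K.Adj j j' ∧ κ j = u ∧ κ j' = v
    · exact Conn.step (Or.inl (hc u)) (Or.inr (hc v)) ((hG _ _).2 (Or.inl ⟨u, v, huv, h, rfl, rfl⟩))
    · obtain ⟨j, j', hj, rfl, rfl⟩ := not_not.1 h
      have key : ∀ a, Conn G0 {x | c0 x = j ∨ c0 x = j'} (ι0 j) a →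
          Conn G {x | Sum.elim id (fun a => κ (c0 a)) x = κ j ∨
            Sum.elim id (fun a => κ (c0 a)) x = κ j'} (.inr (ι0 j)) (.inr a) := by
        intro a ha
        induction ha with
        | refl => exact Conn.refl _
        | tail _ h ih =>
          exact ih.trans (Conn.step (h.1.imp (congrArg κ) (congrArg κ))
            (h.2.1.imp (congrArg κ) (congrArg κ)) ((hG _ _).2 (Or.inr ⟨_, _, h.2.2, rfl, rfl⟩)))
      rw [i1, i1]
      exact key _ (hK.2 j j' hj)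
  obtain ⟨C, h2, h3, h4⟩ := weak_of_kempe hH hKe
  have dis : ∀ u v x, x ∈ C u → x ∈ C v → u = v := fun u v x a b => by
    by_contra hne
    exact Set.disjoint_left.1 (h3 u v hne) a b
  have hex : ∀ w, ∃ u, ι u ∈ C w := fun w => by
    by_contra hn
    have k : ∀ v : H.neighborSet w, ∃ b, Sum.inr b ∈ C v := fun v => by
      obtain ⟨x, hx, y, hy, hxy⟩ := h4 w v v.2
      rcases (hG _ _).1 hxy with ⟨u, -, -, -, rfl, -⟩ | ⟨a, b, -, -, rfl⟩
      · exact (hn ⟨u, hx⟩).elim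
      · exact ⟨b, hy⟩
    choose b hb using k
    exact (deg w).not_ge (Nat.card_le_card_of_injective b fun v v' e =>
      Subtype.ext (dis _ _ _ (hb v) (e ▸ hb v')))
  choose ρ hρ using hex
  have hρi : Function.Injective ρ := fun u v e => dis _ _ _ (hρ u) (e ▸ hρ v)
  obtain ⟨τ, hτ⟩ : ∃ τ : W ≃ W, ∀ u, ι u ∈ C (τ u) := by
    refine ⟨(Equiv.ofBijective ρ hρi.bijective_of_finite).symm, fun u => ?_⟩
    have := hρ ((Equiv.ofBijective ρ hρi.bijective_of_finite).symm u)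
    rwa [Equiv.ofBijective_apply_symm_apply ρ] at this
  have uq : ∀ u v, ι v ∈ C (τ u) → v = u := fun u v h => τ.injective (dis _ _ _ (hτ v) h)
  have nb : ∀ u y, u ∉ Set.range κ → G.Adj (ι u) y → ∃ v, H.Adj u v ∧ ι v = y := by
    intro u y hu h
    rcases (hG _ _).1 h with ⟨u', v, k1, -, k3, k4⟩ | ⟨a, b, -, k, -⟩
    · exact ⟨v, inj k3 ▸ k1, k4⟩
    · rw [i2 u hu] at k
      cases k
  have hr := rigid τ fun u v hu h => by
    obtain ⟨x, hx, y, hy, hxy⟩ := h4 _ _ h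
    have key : ∀ z, Conn G (C (τ u)) (ι u) z → z = ι u := by
      intro z hz
      induction hz with
      | refl => rfl
      | tail _ h ih =>
        obtain ⟨v', -, rfl⟩ := nb u _ hu (ih ▸ h.2.2)
        rw [uq u v' h.2.1]
    obtain ⟨v', k, rfl⟩ := nb u y hu (key x (h2 _ _ (hτ u) x hx) ▸ hxy)
    exact uq v v' hy ▸ k
  refine hR ⟨fun j => {a | Sum.inr a ∈ C (τ (κ j))}, fun j => ?_, fun j a ha => ?_,
    fun j j' hne => Set.disjoint_left.2 fun a k k' => hne (hi (τ.injective (dis _ _ _ k k'))),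
    fun j j' h => ?_⟩
  · show _ ∈ C _
    rw [← i1]
    exact hτ _
  · have key : ∀ z, Conn G (C (τ (κ j))) (ι (κ j)) z →
        ∃ b, Sum.inr b = z ∧ Conn G0 {a | Sum.inr a ∈ C (τ (κ j))} (ι0 j) b := by
      intro z hz
      induction hz with
      | refl => exact ⟨_, (i1 j).symm, Conn.refl _⟩
      | tail _ h ih =>
        obtain ⟨b, rfl, hb⟩ := ih
        obtain ⟨k1, k2, k3⟩ := h
        rcases (hG _ _).1 k3 with ⟨u, v, k, -, e, rfl⟩ | ⟨a', b', k, e, rfl⟩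
        · exact (k.ne ((uq _ u (e ▸ k1)).trans (uq _ v k2).symm)).elim
        · obtain rfl := Sum.inr_injective e
          exact ⟨b', rfl, hb.trans (Conn.step k1 k2 k)⟩
    obtain ⟨b, e, hb⟩ := key _ (h2 _ _ (hτ _) _ ha)
    exact Sum.inr_injective e ▸ hb
  · obtain ⟨x, hx, y, hy, hxy⟩ := h4 _ _ (hr _ ⟨j, rfl⟩ _ ⟨j', rfl⟩ (hκ _ _ h))
    rcases (hG _ _).1 hxy with ⟨u, v, -, k, rfl, rfl⟩ | ⟨a, b, k, rfl, rfl⟩
    · exact (k ⟨j, j', h, (uq _ u hx).symm, (uq _ v hy).symm⟩).elim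
    · exact ⟨a, hx, b, hy, k⟩

/-- The twins of a vertex. -/
def cls (G : SimpleGraph W) (v : W) : Set W := {w | G.neighborSet w = G.neighborSet v}

/-- The pair looks like an edge between two vertices with many twins. -/
def Rel (G : SimpleGraph W) (a : ℕ) (u v : W) : Prop :=
  ∃ z w, a ≤ (cls G z).ncard ∧ a ≤ (cls G w).ncard ∧
    (∀ y, a ≤ (cls G y).ncard → (G.Adj u y ↔ G.Adj z y)) ∧
    (∀ y, a ≤ (cls G y).ncard → (G.Adj v y ↔ G.Adj w y)) ∧ G.Adj z w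

theorem cls_adj {G : SimpleGraph W} {a b : W} (h : a ∈ cls G b) (z : W) :
    G.Adj a z ↔ G.Adj b z := Set.ext_iff.1 h z

theorem cls_adj' {G : SimpleGraph W} {a b : W} (h : a ∈ cls G b) (z : W) :
    G.Adj z a ↔ G.Adj z b := by rw [G.adj_comm, cls_adj h, G.adj_comm]

theorem cls_eq {G : SimpleGraph W} {a b : W} (h : a ∈ cls G b) : cls G a = cls G b := by
  unfold cls
  rw [show G.neighborSet a = G.neighborSet b from h]

theorem cls_comap (G : SimpleGraph W) (τ : W ≃ W) (v : W) :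
    (cls (G.comap τ) v).ncard = (cls G (τ v)).ncard := by
  rw [← Set.ncard_preimage_of_injective_subset_range (s := cls G (τ v)) τ.injective (by simp)]
  congr 1
  ext w
  exact ⟨fun h => Set.ext fun z => by simpa using cls_adj h (τ.symm z),
    fun h => Set.ext fun z => cls_adj h (τ z)⟩

theorem rel_comap (G : SimpleGraph W) (τ : W ≃ W) (a : ℕ) (u v : W) :
    Rel (G.comap τ) a u v ↔ Rel G a (τ u) (τ v) := by
  unfold Rel
  simp only [cls_comap, SimpleGraph.comap_adj]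
  constructor
  · rintro ⟨z, w, h1, h2, h3, h4, h5⟩
    exact ⟨τ z, τ w, h1, h2, τ.surjective.forall.2 h3, τ.surjective.forall.2 h4, h5⟩
  · rintro ⟨z, w, h1, h2, h3, h4, h5⟩
    obtain ⟨z, rfl⟩ := τ.surjective z
    obtain ⟨w, rfl⟩ := τ.surjective w
    exact ⟨z, w, h1, h2, fun y => h3 _, fun y => h4 _, h5⟩

theorem rel_le [Finite W] {G G' : SimpleGraph W} {B : Set W} {a : ℕ} (ha : B.ncard < a)
    (hN : ∀ w ∉ B, ∀ y, G.Adj w y ↔ G'.Adj w y)
    (hb : ∀ w ∉ B, a ≤ (cls G w).ncard ↔ a ≤ (cls G' w).ncard) {u v : W} (h : Rel G a u v) :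
    Rel G' a u v := by
  obtain ⟨z, w, h1, h2, h3, h4, h5⟩ := h
  obtain ⟨z', z1, z2⟩ := Set.exists_mem_notMem_of_ncard_lt_ncard (ha.trans_le h1)
  obtain ⟨w', w1, w2⟩ := Set.exists_mem_notMem_of_ncard_lt_ncard (ha.trans_le h2)
  have key : ∀ u z z', z' ∈ cls G z → (∀ y, a ≤ (cls G y).ncard → (G.Adj u y ↔ G.Adj z y)) →
      ∀ y, a ≤ (cls G' y).ncard → (G'.Adj u y ↔ G'.Adj z' y) := by
    intro u z z' k1 k2 y hy
    obtain ⟨y', y1, y2⟩ := Set.exists_mem_notMem_of_ncard_lt_ncard (ha.trans_le hy)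
    rw [← cls_adj' y1, ← cls_adj' y1, G'.adj_comm u, G'.adj_comm z', ← hN y' y2, ← hN y' y2,
      cls_adj' k1, G.adj_comm y', G.adj_comm y']
    exact k2 y' ((hb y' y2).2 (cls_eq y1 ▸ hy))
  exact ⟨z', w', (hb z' z2).1 (cls_eq z1 ▸ h1), (hb w' w2).1 (cls_eq w1 ▸ h2), key u z z' z1 h3,
    key v w w' w1 h4, (hN z' z2 w').1 ((cls_adj z1 _).2 ((cls_adj' w1 _).2 h5))⟩

theorem big_iff [Finite W] {G : SimpleGraph W} {B : Set W} {a : ℕ}
    (h : ∀ z ∈ B, a ∉ Finset.Ioc (cls G z \ B).ncard ((cls G z \ B).ncard + B.ncard)) (w : W) :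
    a ≤ (cls G w).ncard ↔ a ≤ (cls G w \ B).ncard := by
  refine ⟨fun k => ?_, fun k => k.trans (Set.ncard_le_ncard Set.sdiff_subset)⟩
  by_cases e : ∃ z ∈ B, z ∈ cls G w
  · obtain ⟨z, z1, z2⟩ := e
    have k1 := h z z1
    have k2 := Set.ncard_inter_add_ncard_sdiff_eq_ncard (cls G w) B
    have k3 : (cls G w ∩ B).ncard ≤ B.ncard := Set.ncard_le_ncard Set.inter_subset_right
    rw [cls_eq z2, Finset.mem_Ioc] at k1
    omega
  · exact k.trans (Set.ncard_le_ncard fun z hz => ⟨hz, fun k => e ⟨z, k, hz⟩⟩)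

theorem exists_thr [Finite W] {G G' : SimpleGraph W} {B : Set W}
    (hN : ∀ w ∉ B, ∀ y, G.Adj w y ↔ G'.Adj w y) : ∃ a, B.ncard < a ∧
      a ≤ B.ncard + 1 + 2 * (B.ncard * B.ncard) ∧
      ∀ w ∉ B, a ≤ (cls G w).ncard ↔ a ≤ (cls G' w).ncard := by
  classical
  have hc : ∀ G : SimpleGraph W, ((Set.toFinite B).toFinset.biUnion fun z =>
      Finset.Ioc (cls G z \ B).ncard ((cls G z \ B).ncard + B.ncard)).card ≤
        B.ncard * B.ncard := fun G => by
    refine (Finset.card_biUnion_le_card_mul _ _ B.ncard fun z _ => by simp).trans ?_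
    rw [← Set.ncard_eq_toFinset_card]
  obtain ⟨a, a1, a2⟩ := Finset.exists_mem_notMem_of_card_lt_card
    (((Finset.card_union_le _ _).trans (add_le_add (hc G) (hc G'))).trans_lt
      (show _ < (Finset.Icc (B.ncard + 1) (B.ncard + 1 + 2 * (B.ncard * B.ncard))).card by
        rw [Nat.card_Icc]; omega))
  rw [Finset.mem_Icc] at a1
  simp only [Finset.mem_union, Finset.mem_biUnion, Set.Finite.mem_toFinset, not_or, not_exists,
    not_and] at a2
  refine ⟨a, a1.1, a1.2, fun w hw => ?_⟩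
  have e : cls G w \ B = cls G' w \ B := by
    ext z
    exact and_congr_left fun hz => ⟨fun k => Set.ext fun y =>
      ((hN z hz y).symm.trans (cls_adj k y)).trans (hN w hw y), fun k => Set.ext fun y =>
      ((hN z hz y).trans (cls_adj k y)).trans (hN w hw y).symm⟩
  rw [big_iff a2.1, big_iff a2.2, e]

theorem rigid_twins [Finite W] (H : SimpleGraph W) (U : Set W) (b : ℕ)
    (hb : U.ncard + U.ncard * U.ncard ≤ b) (hp : ∀ v ∈ U, b + 1 + 2 * (b * b) ≤ (cls H v).ncard)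
    (τ : W ≃ W) (h : ∀ u v, u ∉ U → H.Adj (τ u) (τ v) → H.Adj u v) :
    ∀ u ∈ U, ∀ v ∈ U, H.Adj u v → H.Adj (τ u) (τ v) := by
  set E : Set (W × W) := {e | H.Adj e.1 e.2} with hE
  set E' : Set (W × W) := {e | H.Adj (τ e.1) (τ e.2)} with hE'
  have c1 : E'.ncard = E.ncard :=
    Set.ncard_preimage_of_injective_subset_range (f := τ.prodCongr τ) (s := E)
      (τ.prodCongr τ).injective (by simp)
  have c2 : (E \ E').ncard = (E' \ E).ncard := by
    have a := Set.ncard_inter_add_ncard_sdiff_eq_ncard E E'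
    have b := Set.ncard_inter_add_ncard_sdiff_eq_ncard E' E
    rw [Set.inter_comm] at b
    omega
  have c0 : E' \ E ⊆ U ×ˢ U := fun e he => by
    constructor
    · by_contra k
      exact he.2 (h _ _ k he.1)
    · by_contra k
      exact he.2 (h _ _ k (H.adj_symm he.1)).symm
  have c3 : (E' \ E).ncard ≤ U.ncard * U.ncard := Set.ncard_prod ▸ Set.ncard_le_ncard c0
  have c4 : (U ∪ Prod.fst '' (E \ E')).ncard ≤ b := (Set.ncard_union_le _ _).trans
    ((Nat.add_le_add_left ((Set.ncard_image_le).trans (c2 ▸ c3)) _).trans hb)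
  have hN : ∀ w ∉ U ∪ Prod.fst '' (E \ E'), ∀ y, (H.comap τ).Adj w y ↔ H.Adj w y := fun w hw y =>
    ⟨h w y fun k => hw (Or.inl k), fun k => by
      by_contra k'
      exact hw (Or.inr ⟨(w, y), ⟨k, k'⟩, rfl⟩)⟩
  obtain ⟨a, a1, a2, a3⟩ := exists_thr hN
  have big : ∀ v ∈ U, a ≤ (cls H v).ncard := fun v hv =>
    (a2.trans (by gcongr)).trans (hp v hv)
  have c5 : {e : W × W | H.Adj (τ e.1) (τ e.2) ∧ Rel H a (τ e.1) (τ e.2)} ⊆
      {e | H.Adj e.1 e.2 ∧ Rel H a e.1 e.2} := fun e he => by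
    have k := rel_le a1 hN a3 ((rel_comap H τ a _ _).2 he.2)
    refine ⟨?_, k⟩
    by_contra k'
    obtain ⟨z, w, -, h2, h3, h4, h5⟩ := k
    exact k' ((h4 _ (big _ (c0 ⟨he.1, k'⟩).1)).2 ((h3 w h2).2 h5).symm).symm
  have c6 := Set.eq_of_subset_of_ncard_le c5
    (Set.ncard_preimage_of_injective_subset_range (f := τ.prodCongr τ)
      (s := {e | H.Adj e.1 e.2 ∧ Rel H a e.1 e.2}) (τ.prodCongr τ).injective (by simp)).ge
  intro u hu v hv k
  exact ((Set.ext_iff.1 c6 (u, v)).2 ⟨k, u, v, big u hu, big v hv, fun _ _ => Iff.rfl,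
    fun _ _ => Iff.rfl, k⟩).1

theorem triple_not_contractible [Finite J] {H0 : SimpleGraph J} (hc : H0.Connected)
    (hb : ¬ H0.IsBipartite) : ¬ Contractible (H0.comap (Prod.fst : J × Fin 3 → J)) := by
  have := Fintype.ofFinite J
  have h3 : 3 ≤ Fintype.card J := by
    by_contra k
    exact hb (H0.colorable_of_fintype.mono (by omega))
  have : Nontrivial J := Fintype.one_lt_card_iff_nontrivial.1 (by omega)
  have nb : ∀ i, ∃ i', H0.Adj i i' := fun i =>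
    (H0.mem_support).1 (hc.preconnected.support_eq_univ ▸ Set.mem_univ i)
  refine fun k => hb ?_
  have k2 := (contractible_iff_of_three (by
    rw [Nat.card_prod, Nat.card_eq_fintype_card, Nat.card_fin]; omega) fun x y => ?_).1 k
  · exact k2.of_hom (⟨fun i => (i, 0), fun h => h⟩ : H0 →g H0.comap Prod.fst)
  have hs : ∀ i : J, ∃ s : Fin 3, (i, s) ≠ x ∧ (i, s) ≠ y := fun i => by
    have : ∀ a b : Fin 3, ∃ s, s ≠ a ∧ s ≠ b := by decide
    obtain ⟨s, a, b⟩ := this x.2 y.2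
    exact ⟨s, fun e => a (congrArg Prod.snd e), fun e => b (congrArg Prod.snd e)⟩
  choose s hs using hs
  let f : H0 →g (H0.comap (Prod.fst : J × Fin 3 → J)).induce {v | v ≠ x ∧ v ≠ y} :=
    ⟨fun i => ⟨(i, s i), hs i⟩, fun h => h⟩
  have r : ∀ a, ∃ i, ((H0.comap (Prod.fst : J × Fin 3 → J)).induce
      {v | v ≠ x ∧ v ≠ y}).Reachable a (f i) := fun a => by
    obtain ⟨i, hi⟩ := nb a.1.1
    exact ⟨i, SimpleGraph.Adj.reachable hi⟩
  have : Nonempty {v : J × Fin 3 | v ≠ x ∧ v ≠ y} := ⟨f x.1⟩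
  refine ⟨fun a b => ?_⟩
  obtain ⟨i, hi⟩ := r a
  obtain ⟨j, hj⟩ := r b
  exact (hi.trans ((hc.preconnected i j).map f)).trans hj.symm

theorem twins [Finite J] {K0 : SimpleGraph J} (hc : K0.Connected) (hb : ¬ K0.IsBipartite) :
    ∃ m : ℕ, ∀ (W : Type) [Finite W] (H : SimpleGraph W), (∀ v, m ≤ (H.neighborSet v).ncard) →
      ∀ φ : K0 →g H, (∀ i, m ≤ {w | H.neighborSet w = H.neighborSet (φ i)}.ncard) →
      ¬ WeaklyContractible H := by
  have := mt contractible_of_kempe (triple_not_contractible hc hb)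
  push Not at this
  obtain ⟨V, _, G0, ι0, c0, hK, hR⟩ := this
  obtain ⟨b, hb⟩ : ∃ b, Nat.card (J × Fin 3) + Nat.card (J × Fin 3) * Nat.card (J × Fin 3) ≤ b :=
    ⟨_, le_rfl⟩
  refine ⟨Nat.card V + 1 + (b + 1 + 2 * (b * b)), fun W _ H nb φ hp => ?_⟩
  have he : ∀ S : Set W, ∃ e : J × Fin 3 → W, (∃ i, H.neighborSet (φ i) = S) →
      Function.Injective e ∧ ∀ a, H.neighborSet (e a) = S := fun S => by
    by_cases h : ∃ i, H.neighborSet (φ i) = S
    · obtain ⟨v, rfl⟩ := h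
      have := Fintype.ofFinite {w | H.neighborSet w = H.neighborSet (φ v)}
      have := Fintype.ofFinite (J × Fin 3)
      obtain ⟨e⟩ : Nonempty (J × Fin 3 ↪ {w | H.neighborSet w = H.neighborSet (φ v)}) := by
        refine Function.Embedding.nonempty_of_card_le ?_
        rw [← Nat.card_eq_fintype_card, ← Nat.card_eq_fintype_card]
        exact le_trans (by omega) (hp v)
      exact ⟨fun a => e a, fun _ => ⟨Subtype.val_injective.comp e.injective, fun a => (e a).2⟩⟩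
    · exact ⟨fun a => φ a.1, fun k => (h k).elim⟩
  choose e he using he
  have k1 : ∀ a : J × Fin 3, e (H.neighborSet (φ a.1)) a ∈ cls H (φ a.1) :=
    fun a => (he _ ⟨_, rfl⟩).2 a
  have k2 : Function.Injective fun a : J × Fin 3 => e (H.neighborSet (φ a.1)) a := by
    intro a b h
    have h' : e (H.neighborSet (φ a.1)) a = e (H.neighborSet (φ b.1)) b := h
    have k : H.neighborSet (φ a.1) = H.neighborSet (φ b.1) := (k1 a).symm.trans (h' ▸ k1 b)
    rw [k] at h'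
    exact (he _ ⟨_, rfl⟩).1 h'
  refine not_weak k2 (fun j j' h => ?_) hK hR (fun w => lt_of_lt_of_le (by omega) (nb w))
    (rigid_twins H _ b (by rwa [Set.ncard_range_of_injective k2]) ?_)
  · exact (cls_adj (k1 j) _).2 ((cls_adj' (k1 j') _).2 (φ.map_adj h))
  · rintro _ ⟨j, rfl⟩
    rw [cls_eq (k1 j)]
    exact le_trans (by omega) (hp j.1)

end Pool.Agent.Work.MP_3cad78_co.Wk
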