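import Pool.Agent.Work.MP_3cad78_co.Neg

/-! Vertices of degree at most two can be deleted if their roots may move. -/

namespace Pool.Agent.Work.MP_3cad78_co.Wk

variable {V W : Type}

theorem two_reach {G : SimpleGraph V} {S : Set V} {a b : V} (h : Conn G S a b) :
    Conn G {y | y ∈ S ∧ Conn G S a y} a b := by
  induction h with
  | refl => exact Conn.refl _
  | tail h1 h ih => exact ih.trans (Conn.step ⟨h.1, h1⟩ ⟨h.2.1, h1.tail h⟩ h.2.2)

theorem two_enter {G : SimpleGraph V} {S C : Set V} {a b : V} (h : Conn G S a b) (ha : a ∉ C)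
    (hb : b ∈ C) : ∃ z x, x ∈ C ∧ x ∈ S ∧ G.Adj z x ∧ Conn G (S \ C) a z := by
  have key : (b ∉ C ∧ Conn G (S \ C) a b) ∨
      ∃ z x, x ∈ C ∧ x ∈ S ∧ G.Adj z x ∧ Conn G (S \ C) a z := by
    clear hb
    induction h with
    | refl => exact Or.inl ⟨ha, Conn.refl _⟩
    | @tail x y _ h ih =>
      rcases ih with ⟨k1, k2⟩ | k
      · by_cases hy : y ∈ C
        · exact Or.inr ⟨x, y, hy, h.2.1, h.2.2, k2⟩
        · exact Or.inl ⟨hy, k2.trans (Conn.step ⟨h.1, k1⟩ ⟨h.2.1, hy⟩ h.2.2)⟩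
      · exact Or.inr k
  exact key.resolve_left fun k => k.1 hb

theorem two_local {H : SimpleGraph W} {G : SimpleGraph V} {ι : W → V} {c : V → W}
    (hK : Kempe H G ι c) (l p q : W) (h : ∀ v, H.Adj l v → v = p ∨ v = q) :
    ∃ (x : V) (f : V → W), c x = l ∧ f x = l ∧ (∀ v, H.Adj l v →
      ∃ z, G.Adj z x ∧ Conn G {y | c y = v ∨ (c y = l ∧ f y = v)} (ι v) z) ∧
      ((∀ u v, H.Adj l u → H.Adj l v → u = v) → x = ι l) := by
  classical
  wlog hq : H.Adj l q generalizing p q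
  · by_cases hp : H.Adj l p
    · exact this q p (fun v hv => (h v hv).symm) hp
    · exact ⟨ι l, fun _ => l, hK.1 l, rfl, fun v hv => by
        rcases h v hv with rfl | rfl <;> contradiction, fun _ => rfl⟩
  set B : Set V := {y | y ∈ {y | c y = q ∨ c y = l} ∧ Conn G {y | c y = q ∨ c y = l} (ι q) y}
    with hB
  have hl : ι l ∈ B := ⟨Or.inr (hK.1 l), hK.2 q l hq.symm⟩
  obtain ⟨x, x1, x2, x3, x4⟩ : ∃ x ∈ B, c x = l ∧ (H.Adj l p → p ≠ q →
      ∃ z, G.Adj z x ∧ Conn G ({y | c y = p ∨ c y = l} \ B) (ι p) z) ∧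
      ((∀ u v, H.Adj l u → H.Adj l v → u = v) → x = ι l) := by
    by_cases hp : H.Adj l p ∧ p ≠ q
    · obtain ⟨z, x, k1, k2, k3, k4⟩ := two_enter (hK.2 p l hp.1.symm) (C := B) (fun k => by
        rcases k.1 with e | e
        · exact hp.2 ((hK.1 p).symm.trans e)
        · exact hp.1.ne' ((hK.1 p).symm.trans e)) hl
      refine ⟨x, k1, ?_, fun _ _ => ⟨z, k3, k4⟩, fun k => (hp.2 (k _ _ hp.1 hq)).elim⟩
      rcases k2 with e | e
      · exact k1.1.resolve_left fun e' => hp.2 (e.symm.trans e')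
      · exact e
    · exact ⟨ι l, hl, hK.1 l, fun a b => (hp ⟨a, b⟩).elim, fun _ => rfl⟩
  refine ⟨x, fun y => if y = x then l else if y ∈ B then q else p, x2, if_pos rfl,
    fun v hv => ?_, x4⟩
  by_cases e : v = q
  · subst e
    obtain ⟨z, _, rfl, -, k3, k4⟩ := two_enter (two_reach x1.2) (C := {x})
      (fun k => hq.ne (x2.symm.trans (k ▸ hK.1 v))) rfl
    refine ⟨z, k3, k4.mono fun y hy => hy.1.1.imp_right fun k => ⟨k, ?_⟩⟩
    exact (if_neg hy.2).trans (if_pos hy.1)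
  · obtain rfl := (h v hv).resolve_right e
    obtain ⟨z, k1, k2⟩ := x3 hv e
    refine ⟨z, k1, k2.mono fun y hy => hy.1.imp_right fun k => ⟨k, ?_⟩⟩
    exact (if_neg fun e : y = x => hy.2 (e ▸ x1)).trans (if_neg hy.2)

theorem two_kempe [Finite V] {H : SimpleGraph W} {D : Set W}
    (hD : ∀ u ∈ D, ∀ v ∈ D, ¬ H.Adj u v) (h2 : ∀ l ∈ D, ∃ p q, ∀ v, H.Adj l v → v = p ∨ v = q)
    (hc : Contractible (H.induce Dᶜ)) {G : SimpleGraph V} {ι : W → V} {c : V → W}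
    (hK : Kempe H G ι c) : ∃ ι' : W → V,
      (∀ w, w ∉ D ∨ (∀ u v, H.Adj w u → H.Adj w v → u = v) → ι' w = ι w) ∧ Rooted H G ι' := by
  classical
  by_cases hne : ∀ w, w ∈ D
  · exact ⟨ι, fun _ _ => rfl, fun w => {ι w}, fun _ => rfl, fun w x hx => hx ▸ Conn.refl _,
      fun u v huv => Set.disjoint_singleton.2 fun e => huv (by rw [← hK.1 u, e, hK.1]),
      fun u v h => (hD u (hne u) v (hne v) h).elim⟩
  obtain ⟨v0, hv0⟩ := not_forall.1 hne
  have loc : ∀ l, ∃ (x : V) (f : V → W), l ∈ D → c x = l ∧ f x = l ∧ (∀ v, H.Adj l v →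
      ∃ z, G.Adj z x ∧ Conn G {y | c y = v ∨ (c y = l ∧ f y = v)} (ι v) z) ∧
      ((∀ u v, H.Adj l u → H.Adj l v → u = v) → x = ι l) := fun l => by
    by_cases hl : l ∈ D
    · obtain ⟨p, q, h⟩ := h2 l hl
      obtain ⟨x, f, k⟩ := two_local hK l p q h
      exact ⟨x, f, fun _ => k⟩
    · exact ⟨ι l, c, fun k => (hl k).elim⟩
  choose x f hx using loc
  obtain ⟨a, a1, a2⟩ : ∃ a : V → W, (∀ y, c y ∉ D → a y = c y) ∧
      ∀ y, c y ∈ D → a y = f (c y) y :=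
    ⟨fun y => if c y ∈ D then f (c y) y else c y, fun y h => if_neg h, fun y h => if_pos h⟩
  have a3 : ∀ v ∉ D, a (ι v) = v := fun v hv => by rw [a1 _ (by rwa [hK.1]), hK.1]
  have a4 : ∀ l ∈ D, a (x l) = l := fun l hl => by
    rw [a2 _ (by rwa [(hx l hl).1]), (hx l hl).1, (hx l hl).2.1]
  obtain ⟨π, p1, p2⟩ : ∃ π : V → V, (∀ y, Conn G {z | a z = a y} (ι (a y)) y → π y = ι (a y)) ∧
      ∀ y, ¬ Conn G {z | a z = a y} (ι (a y)) y → π y = y :=
    ⟨fun y => if Conn G {z | a z = a y} (ι (a y)) y then ι (a y) else y, fun y h => if_pos h,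
      fun y h => if_neg h⟩
  have p3 : ∀ y, a y ∉ D → a (π y) = a y := fun y hy => by
    by_cases h : Conn G {z | a z = a y} (ι (a y)) y
    · rw [p1 y h, a3 _ hy]
    · rw [p2 y h]
  have p4 : ∀ v ∉ D, ∀ z, Conn G {y | a y = v} (ι v) z → a z = v ∧ π z = ι v := fun v hv z h => by
    obtain rfl : a z = v := h.mem (a3 v hv)
    exact ⟨rfl, p1 z h⟩
  obtain ⟨G', hG⟩ : ∃ G' : SimpleGraph V, ∀ s t, G'.Adj s t ↔
      s ≠ t ∧ ∃ y y', π y = s ∧ π y' = t ∧ G.Adj y y' ∧ a y ∉ D ∧ a y' ∉ D :=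
    ⟨⟨fun s t => s ≠ t ∧ ∃ y y', π y = s ∧ π y' = t ∧ G.Adj y y' ∧ a y ∉ D ∧ a y' ∉ D,
      ⟨fun _ _ ⟨h, y, y', k1, k2, k3, k4, k5⟩ => ⟨h.symm, y', y, k2, k1, k3.symm, k5, k4⟩⟩,
      ⟨fun _ h => h.1 rfl⟩⟩, fun _ _ => Iff.rfl⟩
  obtain ⟨c', c1⟩ : ∃ c' : V → (Dᶜ : Set W), ∀ y, a y ∉ D → (c' y).1 = a y :=
    ⟨fun y => if h : a y ∈ D then ⟨v0, hv0⟩ else ⟨a y, h⟩, fun y h => by simp only [dif_neg h]⟩
  have hK' : Kempe (H.induce Dᶜ) G' (fun v => ι v) c' := by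
    refine ⟨fun v => Subtype.ext ((c1 _ (by rw [a3 _ v.2]; exact v.2)).trans (a3 _ v.2)),
      fun u v huv => ?_⟩
    have m : ∀ y, y ∈ {y | c y = u ∨ c y = v} →
        a y ∉ D ∧ π y ∈ {y | c' y = u ∨ c' y = v} := fun y hy => by
      have k : c y ∉ D := by
        rcases hy with e | e <;> rw [e]
        exacts [u.2, v.2]
      have k' : a y ∉ D := by rwa [a1 y k]
      have e : (c' (π y)).1 = c y := by rw [c1 _ (by rwa [p3 y k']), p3 y k', a1 y k]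
      exact ⟨k', hy.imp (fun h => Subtype.ext (e.trans h)) fun h => Subtype.ext (e.trans h)⟩
    have key : ∀ z, Conn G {y | c y = u ∨ c y = v} (ι u) z →
        Conn G' {y | c' y = u ∨ c' y = v} (π (ι u)) (π z) := by
      intro z hz
      induction hz with
      | refl => exact Conn.refl _
      | @tail s t _ h ih =>
        by_cases e : π s = π t
        · exact e ▸ ih
        · exact ih.trans (Conn.step (m _ h.1).2 (m _ h.2.1).2
            ((hG _ _).2 ⟨e, s, t, rfl, rfl, h.2.2, (m _ h.1).1, (m _ h.2.1).1⟩))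
    have := key _ (hK.2 u v huv)
    rwa [(p4 _ u.2 _ (Conn.refl _)).2, (p4 _ v.2 _ (Conn.refl _)).2] at this
  obtain ⟨C, h1, h3, h4, h5⟩ := rooted_of_contractible hc hK'
  have fib : ∀ v y, a y ∉ D → π y ∈ C v → Conn G {y | a y ∉ D ∧ π y ∈ C v} (π y) y := by
    intro v y hy k
    by_cases h : Conn G {z | a z = a y} (ι (a y)) y
    · rw [p1 y h] at k ⊢
      refine (two_reach h).mono fun z hz => ?_
      obtain ⟨e1, e2⟩ := p4 _ hy z hz.2
      exact ⟨e1 ▸ hy, e2 ▸ k⟩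
    · rw [p2 y h]
      exact Conn.refl _
  obtain ⟨E, e1, e2⟩ : ∃ E : W → Set V, (∀ l ∈ D, E l = {x l}) ∧
      ∀ v (hv : v ∉ D), E v = {y | a y ∉ D ∧ π y ∈ C ⟨v, hv⟩} :=
    ⟨fun w => if h : w ∈ D then {x w} else {y | a y ∉ D ∧ π y ∈ C ⟨w, h⟩},
      fun l h => dif_pos h, fun v h => dif_neg h⟩
  have tch : ∀ l ∈ D, ∀ v, H.Adj l v → ∃ s ∈ E l, ∃ t ∈ E v, G.Adj s t := fun l hl v h => by
    have hv : v ∉ D := fun k => hD l hl v k h
    obtain ⟨z, k1, k2⟩ := (hx l hl).2.2.1 v h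
    obtain ⟨k3, k4⟩ := p4 v hv z (k2.mono fun y hy => by
      rcases hy with e | ⟨e, e'⟩
      · exact (a1 y (by rwa [e])).trans e
      · exact (a2 y (by rwa [e])).trans (e ▸ e'))
    exact ⟨x l, e1 l hl ▸ rfl, z, e2 v hv ▸ ⟨k3 ▸ hv, k4 ▸ h1 ⟨v, hv⟩⟩, k1.symm⟩
  refine ⟨fun w => if w ∈ D then x w else ι w, fun w h => ?_, E, fun w => ?_,
    fun w y hy => ?_, fun u v huv => Set.disjoint_left.2 fun y k k' => ?_, fun u v h => ?_⟩
  · by_cases k : w ∈ D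
    · exact (if_pos k).trans ((hx w k).2.2.2 (h.resolve_left fun k' => k' k))
    · exact if_neg k
  · by_cases h : w ∈ D
    · simp only [if_pos h, e1 w h, Set.mem_singleton_iff]
    · simp only [if_neg h, e2 w h]
      exact ⟨(a3 w h).symm ▸ h, (p4 w h _ (Conn.refl _)).2.symm ▸ h1 ⟨w, h⟩⟩
  · by_cases h : w ∈ D
    · rw [e1 w h] at hy
      simp only [if_pos h]
      exact hy ▸ Conn.refl _
    · rw [e2 w h] at hy ⊢
      simp only [if_neg h]
      have key : ∀ s, Conn G' (C ⟨w, h⟩) (ι w) s → ∀ y, a y ∉ D → π y = s →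
          Conn G {y | a y ∉ D ∧ π y ∈ C ⟨w, h⟩} (ι w) y := by
        intro s hs
        induction hs with
        | refl => exact fun y k e => e ▸ fib _ y k (e ▸ h1 ⟨w, h⟩)
        | tail _ k ih =>
          rintro y hy rfl
          obtain ⟨k1, k2, k3⟩ := k
          obtain ⟨-, s, t, rfl, e, k4, k5, k6⟩ := (hG _ _).1 k3
          exact ((ih s k5 rfl).trans (Conn.step ⟨k5, k1⟩ ⟨k6, e ▸ k2⟩ k4)).trans
            ((fib _ t k6 (e ▸ k2)).symm.trans (e ▸ fib _ y hy k2))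
      exact key _ (h3 _ _ hy.2) y hy.1 rfl
  · by_cases hu : u ∈ D <;> by_cases hv : v ∈ D
    · rw [e1 u hu] at k
      rw [e1 v hv] at k'
      exact huv (by rw [← a4 u hu, ← a4 v hv, ← show y = x u from k, ← show y = x v from k'])
    · rw [e1 u hu] at k
      rw [e2 v hv] at k'
      exact k'.1 (by rwa [show y = x u from k, a4 u hu])
    · rw [e2 u hu] at k
      rw [e1 v hv] at k'
      exact k.1 (by rwa [show y = x v from k', a4 v hv])
    · rw [e2 u hu] at k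
      rw [e2 v hv] at k'
      exact Set.disjoint_left.1 (h4 ⟨u, hu⟩ ⟨v, hv⟩ fun e => huv (congrArg Subtype.val e)) k.2 k'.2
  · by_cases hu : u ∈ D
    · exact tch u hu v h
    by_cases hv : v ∈ D
    · obtain ⟨s, k1, t, k2, k3⟩ := tch v hv u h.symm
      exact ⟨t, k2, s, k1, k3.symm⟩
    obtain ⟨s, k1, t, k2, k3⟩ := h5 ⟨u, hu⟩ ⟨v, hv⟩ h
    obtain ⟨-, y, y', rfl, rfl, k4, k5, k6⟩ := (hG _ _).1 k3
    exact ⟨y, e2 u hu ▸ ⟨k5, k1⟩, y', e2 v hv ▸ ⟨k6, k2⟩, k4⟩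

theorem two_leaf [Finite W] {H : SimpleGraph W} {D : Set W}
    (hD : ∀ u ∈ D, ∀ v ∈ D, ¬ H.Adj u v) (h1 : ∀ l ∈ D, ∀ u v, H.Adj l u → H.Adj l v → u = v)
    (hc : Contractible (H.induce Dᶜ)) : Contractible H := by
  refine contractible_of_kempe fun V _ G ι c hK => ?_
  obtain ⟨ι', k1, k2⟩ := two_kempe hD (fun l hl => by
    by_cases k : ∃ p, H.Adj l p
    · obtain ⟨p, hp⟩ := k
      exact ⟨p, p, fun v hv => Or.inl (h1 l hl _ _ hv hp)⟩
    · exact ⟨l, l, fun v hv => (k ⟨v, hv⟩).elim⟩) hc hK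
  obtain rfl : ι' = ι := funext fun w => k1 w ((em (w ∈ D)).symm.imp_right (h1 w))
  exact k2

theorem two_iso {W' : Type} [Finite W'] {H : SimpleGraph W} {H' : SimpleGraph W'} (e : H ≃g H')
    (hc : Contractible H) : Contractible H' := by
  refine contractible_of_kempe fun V _ G ι c hK => ?_
  obtain ⟨C, h1, h2, h3, h4⟩ := rooted_of_contractible hc (G := G) (ι := fun w => ι (e w))
    (c := fun x => e.symm (c x)) ⟨fun w => e.symm_apply_eq.2 (hK.1 _), fun u v h =>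
      (hK.2 _ _ (e.map_adj_iff.2 h)).mono fun x hx =>
        hx.imp (fun k => e.symm_apply_eq.2 k) fun k => e.symm_apply_eq.2 k⟩
  exact ⟨fun w => C (e.symm w), fun w => by simpa using h1 (e.symm w),
    fun w x hx => by simpa using h2 (e.symm w) x hx,
    fun u v h => h3 _ _ fun k => h (e.symm.injective k),
    fun u v h => h4 _ _ (e.symm.map_adj_iff.2 h)⟩

theorem two_match [Finite W] {H : SimpleGraph W} {D : Set W}
    (h1 : ∀ l ∈ D, ∀ u v, H.Adj l u → H.Adj l v → u = v)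
    (hc : Contractible (H.induce Dᶜ)) : Contractible H := by
  obtain ⟨r, hr⟩ := Countable.exists_injective_nat W
  refine two_leaf (D := {l | l ∈ D ∧ ∃ l' ∈ D, H.Adj l l' ∧ r l < r l'}) ?_
    (fun l hl => h1 l hl.1) (two_leaf (D := {l | l.1 ∈ D}) ?_
      (fun l hl u v a b => Subtype.ext (h1 l hl u v a b)) (two_iso ?_ hc))
  · rintro u ⟨hu, u', -, a, b⟩ v ⟨hv, v', -, a', b'⟩ h
    rw [h1 u hu _ _ a h] at b
    rw [h1 v hv _ _ a' h.symm] at b'
    omega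
  · intro u hu v hv h
    rcases lt_trichotomy (r u) (r v) with k | k | k
    · exact u.2 ⟨hu, v, hv, h, k⟩
    · exact h.ne (Subtype.ext (hr k))
    · exact v.2 ⟨hv, u, hu, h.symm, k⟩
  · exact ⟨⟨fun w => ⟨⟨w.1, fun k => w.2 k.1⟩, w.2⟩, fun w => ⟨w.1.1, w.2⟩, fun _ => rfl,
      fun _ => rfl⟩, Iff.rfl⟩

theorem two_main [Finite W] {H : SimpleGraph W}
    (hc : Contractible (H.induce {v | 3 ≤ (H.neighborSet v).ncard})) (V : Type) [Finite V]
    (G : SimpleGraph V) (ι : W ↪ V) (S : H.edgeSet → Set V) (hS : IsScheme H G ι S) :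
    ∃ C : W → G.Subgraph, IsModel H G C ∧
      ∀ w, (H.neighborSet w).ncard ≠ 2 → ι w ∈ (C w).verts := by
  rcases isEmpty_or_nonempty W with hW | hW
  · exact ⟨fun w => isEmptyElim w, ⟨fun w => isEmptyElim w, fun w => isEmptyElim w,
      fun w => isEmptyElim w⟩, fun w => isEmptyElim w⟩
  obtain ⟨c, hK⟩ := kempe_of_scheme hS
  have three : ∀ {l p q r : W}, H.Adj l p → H.Adj l q → H.Adj l r → p ≠ q → p ≠ r → q ≠ r →
      3 ≤ (H.neighborSet l).ncard := fun {l p q r} hp hq hr a b c =>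
    (Set.two_lt_ncard (Set.toFinite _)).2 ⟨p, hp, q, hq, r, hr, a, b, c⟩
  obtain ⟨D, ⟨d1, d2⟩, d3⟩ := (Set.toFinite {D : Set W | (∀ l ∈ D, ¬ 3 ≤ (H.neighborSet l).ncard) ∧
    ∀ u ∈ D, ∀ v ∈ D, ¬ H.Adj u v}).exists_maximal ⟨∅, by simp⟩
  have d4 : ∀ l ∉ D, ¬ 3 ≤ (H.neighborSet l).ncard → ∃ d ∈ D, H.Adj l d := fun l hl k => by
    by_contra k'
    refine hl (d3 (y := insert l D) ⟨?_, ?_⟩ (Set.subset_insert _ _) (Set.mem_insert _ _))
    · rintro _ (rfl | h)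
      exacts [k, d1 _ h]
    · rintro u (rfl | hu) v (rfl | hv) h
      exacts [h.ne rfl, k' ⟨v, hv, h⟩, k' ⟨u, hu, h.symm⟩, d2 u hu v hv h]
  obtain ⟨ι', k1, k2⟩ := two_kempe d2 (fun l hl => by
    by_contra k
    push Not at k
    obtain ⟨p, hp, -⟩ := k l l
    obtain ⟨q, hq, k1, -⟩ := k p p
    obtain ⟨r, hr, k2, k3⟩ := k p q
    exact d1 l hl (three hp hq hr k1.symm k2.symm k3.symm))
    (two_match (D := {l | ¬ 3 ≤ (H.neighborSet l.1).ncard}) (fun l hl u v a b => by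
      obtain ⟨d, hd, k⟩ := d4 l l.2 hl
      by_contra e
      exact hl (three a b k (fun k => e (Subtype.ext k)) (fun k : u.1 = d => u.2 (k ▸ hd))
        fun k : v.1 = d => v.2 (k ▸ hd)))
      (two_iso ⟨⟨fun w => ⟨⟨w.1, fun k => d1 _ k w.2⟩, not_not.2 w.2⟩,
        fun w => ⟨w.1.1, not_not.1 w.2⟩, fun _ => rfl, fun _ => rfl⟩, Iff.rfl⟩ hc)) hK
  obtain ⟨C, k3, k4⟩ := model_of_rooted k2
  refine ⟨C, k3, fun w hw => k1 w ((em (w ∈ D)).symm.imp_right fun h u v a b => ?_) ▸ k4 w⟩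
  have := d1 w h
  exact (Set.ncard_le_one (s := H.neighborSet w) (Set.toFinite _)).1 (by omega) u a v b

end Pool.Agent.Work.MP_3cad78_co.Wk
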